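import Pool.Agent.H477.O.Stm6

set_option autoImplicit false

/-!
# Project Q, part QLOG (helper118 for helper477)
-/

open Complex Filter Topology Metric Set

namespace Pool.Agent.H118.QLog

open Pool.Agent.H477.O

theorem ball_re {c w : ℂ} {r : ℝ} (h : w ∈ closedBall c r) :
    c.re - r ≤ w.re ∧ w.re ≤ c.re + r ∧ |w.im - c.im| ≤ r := by
  rw [mem_closedBall, dist_eq_norm] at h
  have h1 := (Complex.abs_re_le_norm (w - c)).trans h
  have h2 := (Complex.abs_im_le_norm (w - c)).trans h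
  rw [Complex.sub_re, abs_le] at h1
  rw [Complex.sub_im] at h2
  exact ⟨by linarith [h1.1], by linarith [h1.2], h2⟩

theorem qlog (h1 : S_QTC) (h2 : S_QRE) (h3 : S_PFAR) : S_QLOG := by
  intro a K j R V ha hR hV
  have hj : (0 : ℝ) ≤ j := Nat.cast_nonneg j
  have hR0 : 0 ≤ R := by linarith
  obtain ⟨K1, ℓ1, hK1, hℓ1, re⟩ := h2 a K j R V ha hR hV
  obtain ⟨K2, ℓ2, hK2, hℓ2, far⟩ := h3 a K j R R V hR0 hR0 (by linarith)
  obtain ⟨R1, hR1⟩ : ∃ R1 : ℝ, R1 = a + j + 3 := ⟨_, rfl⟩
  have hR13 : 3 ≤ R1 := by linarith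
  have hlR : 0 < Real.log R1 := Real.log_pos (by linarith)
  have hRl : 0 < R1 * Real.log R1 := mul_pos (by linarith) hlR
  obtain ⟨K3, hK3⟩ : ∃ K3 : ℝ, K3 = K1 + 1 + K2 := ⟨_, rfl⟩
  have hlog4 : 0 < Real.log 4 := Real.log_pos (by norm_num)
  refine ⟨2 * (R1 * Real.log R1) * Real.log 4 + 1, 8 * K3, 1 / (2 * (R1 * Real.log R1)),
    max ℓ1 ℓ2, ?_, by linarith, by positivity, le_trans hℓ1 (le_max_left _ _), ?_⟩
  · have : 0 < 2 * (R1 * Real.log R1) * Real.log 4 := by positivity
    linarith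
  intro X M ℓ y hX hℓ b hb hba hZ z hz1 hz2 hz3
  have l1 : ℓ1 ≤ ℓ := (le_max_left _ _).trans hℓ
  have l2 : ℓ2 ≤ ℓ := (le_max_right _ _).trans hℓ
  have l3 : 3 ≤ ℓ := hℓ1.trans l1
  have hℓ0 : 0 < ℓ := by linarith
  have lg0 : 0 < Real.log ℓ := Real.log_pos (by linarith)
  obtain ⟨u, hu⟩ : ∃ u : ℝ, u = z.re - 1 / 2 - b := ⟨_, rfl⟩
  have huA : 2 * (R1 * Real.log R1) * Real.log 4 ≤ u * Real.log ℓ := by
    have e1 : (2 * (R1 * Real.log R1) * Real.log 4 + 1) / Real.log ℓ ≤ u := by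
      rw [hu]
      linarith
    rw [div_le_iff₀ lg0] at e1
    linarith
  have hu0 : 0 < u := by
    have e1 : 0 < (2 * (R1 * Real.log R1) * Real.log 4 + 1) / Real.log ℓ := by positivity
    rw [hu]
    linarith
  have hfz : iteratedDeriv j X z ≠ 0 := hZ z (by linarith) (by linarith) (by linarith)
  refine ⟨hfz, ?_⟩
  rw [← hu]
  have hE : 0 < 8 * K3 * ℓ * Real.exp (-(1 / (2 * (R1 * Real.log R1)) * u * Real.log ℓ)) := by
    have : 0 < K3 := by linarith
    positivity
  by_cases hc : 1 / 2 + a + j ≤ z.re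
  · obtain ⟨-, g2, -, -⟩ := far X M ℓ y hX l2 z hc hz2 (by linarith)
    refine g2.trans ?_
    linarith
  push Not at hc
  have hua : u < a + j := by
    rw [hu]
    linarith
  have hfd : Differentiable ℂ (iteratedDeriv j X) :=
    (hX.diff.contDiff (n := ((j + 1 : ℕ) : WithTop ℕ∞))).differentiable_iteratedDeriv j
      (by exact_mod_cast Nat.lt_succ_self j)
  set f := iteratedDeriv j X with hf
  obtain ⟨v, hv⟩ : ∃ v : ℝ, v = min u 1 := ⟨_, rfl⟩
  have hv0 : 0 < v := by
    rw [hv]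
    exact lt_min hu0 one_pos
  have hvu : v ≤ u := by
    rw [hv]
    exact min_le_left _ _
  have hv1 : v ≤ 1 := by
    rw [hv]
    exact min_le_right _ _
  set c : ℂ := ⟨1 / 2 + b + v / 2 + R1, z.im⟩ with hcd
  have cre : c.re = 1 / 2 + b + v / 2 + R1 := rfl
  have cim : c.im = z.im := rfl
  have im_b : ∀ (w : ℂ) (s : ℝ), |w.im - c.im| ≤ s → |w.im - y| ≤ s + 1 := by
    intro w s hw
    rw [cim] at hw
    calc |w.im - y| = |(w.im - z.im) + (z.im - y)| := by ring_nf
      _ ≤ |w.im - z.im| + |z.im - y| := abs_add_le _ _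
      _ ≤ s + 1 := by linarith
  have hball : ∀ w ∈ closedBall c R1, f w ≠ 0 ∧ -(K3 * ℓ) ≤ (logDeriv f w - ℓ).re := by
    intro w hw
    obtain ⟨w1, w2, w3⟩ := ball_re hw
    rw [cre] at w1 w2
    have w4 := im_b w R1 w3
    refine ⟨hZ w (by linarith) (by linarith) (by linarith), ?_⟩
    have e1 := re X M ℓ y hX l1 b hb hba hZ w (by linarith) (by linarith) (by linarith)
    rw [Complex.sub_re, Complex.ofReal_re]
    have e2 : K3 * ℓ = K1 * ℓ + ℓ + K2 * ℓ := by
      rw [hK3]
      ring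
    have e3 : 0 ≤ K2 * ℓ := by positivity
    linarith
  have key := h1 R1 K3 ℓ (u / 2) (by linarith) (by linarith) l3 (by linarith) (by linarith)
    (fun w => logDeriv f w - ℓ) c (fun w hw => by
      have e1 : AnalyticAt ℂ f w := hfd.analyticAt w
      have e2 : AnalyticAt ℂ (logDeriv f) w := e1.deriv.div e1 (hball w hw).1
      exact e2.sub analyticAt_const) (fun w hw => (hball w hw).2) (fun w hw => by
      obtain ⟨w1, w2, w3⟩ := ball_re hw
      rw [cre] at w1 w2
      have w4 := im_b w 1 w3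
      have e1 := (far X M ℓ y hX l2 w (by linarith) (by linarith) (by linarith)).2.1
      exact e1.trans (by linarith)) (by
      have e1 : Real.log 4 ≤ u / 2 / (R1 * Real.log R1) * Real.log ℓ := by
        have e2 : u / 2 / (R1 * Real.log R1) * Real.log ℓ =
            (u * Real.log ℓ) / (2 * (R1 * Real.log R1)) := by
          field_simp
        rw [e2, le_div_iff₀ (by positivity)]
        linarith
      calc Real.exp (-(u / 2 / (R1 * Real.log R1) * Real.log ℓ)) ≤ Real.exp (-Real.log 4) :=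
            Real.exp_le_exp.2 (by linarith)
        _ = 1 / 4 := by
            rw [Real.exp_neg, Real.exp_log (by norm_num)]
            norm_num) z (by
      rw [mem_closedBall, dist_eq_norm]
      have h5 : z - c = ((z.re - c.re : ℝ) : ℂ) := by
        apply Complex.ext
        · simp
        · simp [cim]
      rw [h5, Complex.norm_real, Real.norm_eq_abs, cre, abs_of_nonpos (by linarith)]
      linarith)
  have e3 : u / 2 / (R1 * Real.log R1) * Real.log ℓ =
      1 / (2 * (R1 * Real.log R1)) * u * Real.log ℓ := by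
    field_simp
  rw [e3] at key
  refine key.trans ?_
  linarith

end Pool.Agent.H118.QLog
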